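import Pool.Agent.Y661.HE.Stm

set_option autoImplicit false

/-! Project HE: asymptotics IV. -/

namespace Pool.Agent.Y275.HE.AS4

open Filter Pool.Agent.Y661.HE Pool.Agent.H4R2.HU

/-- polynomials are smaller than `exp (d ^ β)` -/
lemma poly_le {β : ℝ} (hβ : 0 < β) (K : ℝ) (N : ℕ) :
    ∀ᶠ d : ℕ in atTop, K * (d : ℝ) ^ N ≤ Real.exp ((d : ℝ) ^ β) := by
  obtain ⟨k, hk⟩ := exists_nat_ge ((N : ℝ) / β)
  have h1 : Tendsto (fun d : ℕ => (d : ℝ) ^ β) atTop atTop :=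
    (tendsto_rpow_atTop hβ).comp tendsto_natCast_atTop_atTop
  have h2 := (Real.tendsto_exp_div_pow_atTop k).comp h1
  filter_upwards [h2.eventually_ge_atTop |K|, eventually_ge_atTop 1] with d hd hd1
  have hd1' : (1 : ℝ) ≤ d := by exact_mod_cast hd1
  have hpos : 0 < (d : ℝ) ^ β := Real.rpow_pos_of_pos (by linarith) β
  have h3 : |K| * ((d : ℝ) ^ β) ^ k ≤ Real.exp ((d : ℝ) ^ β) := by
    have := hd
    simp only [Function.comp_apply] at this
    rwa [le_div_iff₀ (by positivity)] at this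
  have h4 : (d : ℝ) ^ N ≤ ((d : ℝ) ^ β) ^ k := by
    rw [← Real.rpow_natCast ((d : ℝ) ^ β) k, ← Real.rpow_mul (by linarith),
      ← Real.rpow_natCast (d : ℝ) N]
    refine Real.rpow_le_rpow_of_exponent_le hd1' ?_
    rw [div_le_iff₀ hβ] at hk
    linarith
  calc K * (d : ℝ) ^ N ≤ |K| * (d : ℝ) ^ N :=
        mul_le_mul_of_nonneg_right (le_abs_self K) (by positivity)
    _ ≤ |K| * ((d : ℝ) ^ β) ^ k := mul_le_mul_of_nonneg_left h4 (abs_nonneg K)
    _ ≤ _ := h3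

lemma CC_bd {d m : ℕ} (hd : 1 ≤ d) {c : ℝ} (hc : ((d : ℝ) ^ m)⁻¹ ≤ c) :
    0 < CC d c ∧ CC d c ≤ 308 * (d : ℝ) ^ (m + 3) := by
  have hd1 : (1 : ℝ) ≤ d := by exact_mod_cast hd
  have hdm : 0 < (d : ℝ) ^ m := by positivity
  have hc0 : 0 < c := lt_of_lt_of_le (by positivity) hc
  have h1 : 1 / c ≤ (d : ℝ) ^ m := by
    rw [div_le_iff₀ hc0]
    rw [inv_le_iff_one_le_mul₀ hdm] at hc
    linarith
  have h2 : Real.sqrt (8 * d) ≤ 3 * d := by
    rw [show (3 : ℝ) * d = Real.sqrt ((3 * d) ^ 2) by rw [Real.sqrt_sq (by positivity)]]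
    apply Real.sqrt_le_sqrt
    nlinarith
  have h3 : (1 : ℝ) ≤ (d : ℝ) ^ m := one_le_pow₀ hd1
  have h4 : (d : ℝ) ^ (m + 3) = (d : ℝ) ^ m * (d : ℝ) ^ 3 := pow_add _ _ _
  have h5 : (1 : ℝ) ≤ (d : ℝ) ^ 3 := one_le_pow₀ hd1
  have h6 : 8 * (d : ℝ) + 2 + ((d ^ 2 : ℕ) : ℝ) ≤ 11 * (d : ℝ) ^ 2 := by
    push_cast
    nlinarith
  have h7 : (d : ℝ) ^ 2 ≤ (d : ℝ) ^ 3 := pow_le_pow_right₀ hd1 (by norm_num)
  have h8 : (d : ℝ) ^ 3 ≤ (d : ℝ) ^ m * (d : ℝ) ^ 3 := by nlinarith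
  have h9 : (d : ℝ) ^ m ≤ (d : ℝ) ^ m * (d : ℝ) ^ 3 := by nlinarith
  have h10 : cc d ≤ 132 * (d : ℝ) ^ 3 := by
    unfold cc
    calc 4 * Real.sqrt (8 * d) * (8 * d + 2 + ((d ^ 2 : ℕ) : ℝ))
        ≤ 4 * (3 * d) * (11 * (d : ℝ) ^ 2) := by gcongr
      _ = 132 * (d : ℝ) ^ 3 := by ring
  have h11 : 0 ≤ cc d := by
    unfold cc
    positivity
  have h12 : 4 * (1 + 3 / (2 * c)) = 4 + 6 * (1 / c) := by
    field_simp
    ring
  constructor
  · unfold CC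
    positivity
  · unfold CC
    rw [h12, h4]
    nlinarith

theorem main : S_AS4 := by
  intro β hβ hβ2 m
  filter_upwards [poly_le hβ (2 * 46200 ^ 2) (2 * (m + 4)), poly_le hβ 1848 (m + 5),
    eventually_ge_atTop 1] with d h1 h2 hd
  intro c κ hc hκ
  have hd1 : (1 : ℝ) ≤ d := by exact_mod_cast hd
  obtain ⟨hC0, hC1⟩ := CC_bd hd hc
  obtain ⟨x, hx⟩ : ∃ x : ℝ, x = (d : ℝ) ^ β := ⟨_, rfl⟩
  have hx0 : 0 ≤ x := by
    rw [hx]
    positivity
  have hxd : x ≤ d := by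
    rw [hx]
    calc (d : ℝ) ^ β ≤ (d : ℝ) ^ (1 : ℝ) := Real.rpow_le_rpow_of_exponent_le hd1 (by linarith)
      _ = d := Real.rpow_one _
  rw [← hx] at h1 h2 ⊢
  have hκ' : κ = Real.exp (-x) / 2 := by
    rw [hκ]
    unfold rr
    rw [← hx]
  have hκ2 : 2 / κ = 4 * Real.exp x := by
    rw [hκ', Real.exp_neg]
    field_simp
    norm_num
  have hlog : Real.log (2 / κ) = Real.log 4 + x := by
    rw [hκ2, Real.log_mul (by norm_num) (Real.exp_pos x).ne', Real.log_exp]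
  have hl4 : Real.log 4 ≤ 2 := by
    have : Real.log 4 = 2 * Real.log 2 := by
      rw [show (4 : ℝ) = 2 ^ 2 by norm_num, Real.log_pow]
      norm_num
    rw [this]
    have := Real.log_two_lt_d9
    linarith
  have hl40 : 0 < Real.log 4 := Real.log_pos (by norm_num)
  obtain ⟨L, hL⟩ : ∃ L : ℝ, L = Real.log 4 + x := ⟨_, rfl⟩
  have hL0 : 0 < L := by
    rw [hL]
    linarith
  have hL1 : L ≤ 3 * d := by
    rw [hL]
    linarith
  have hCL : CC d c * L ≤ 924 * (d : ℝ) ^ (m + 4) := by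
    calc CC d c * L ≤ (308 * (d : ℝ) ^ (m + 3)) * (3 * d) := by gcongr
      _ = 924 * (d : ℝ) ^ (m + 4) := by ring
  have hCL0 : 0 < CC d c * L := mul_pos hC0 hL0
  rw [hlog, ← hL]
  constructor
  · have hpos : 0 < 2 / κ := by
      rw [hκ2]
      positivity
    rw [Real.rpow_def_of_pos hpos, hlog, ← hL, ← Real.exp_nat_mul, ← Real.exp_add,
      ← Real.exp_add, Real.exp_le_one_iff]
    have e1 : L * CC d c * (1 + d) ≤ Real.exp x := by
      refine le_trans ?_ h2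
      calc L * CC d c * (1 + d) = (CC d c * L) * (1 + d) := by ring
        _ ≤ (924 * (d : ℝ) ^ (m + 4)) * (d + d) := by gcongr
        _ = 1848 * (d : ℝ) ^ (m + 5) := by ring
    have e2 : Real.exp x ≤ Real.exp (2 * x) := Real.exp_le_exp.2 (by linarith)
    nlinarith
  · have hden : 0 < 50 * CC d c * L := by positivity
    rw [le_div_iff₀ hden]
    rw [← abs_of_pos (mul_pos (Real.exp_pos (-x)) hden), ← Real.sqrt_sq_eq_abs]
    apply Real.sqrt_le_sqrt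
    rw [hκ']
    have e1 : (50 * CC d c * L) ^ 2 * 2 ≤ Real.exp x := by
      refine le_trans ?_ h1
      have e2 : 50 * CC d c * L ≤ 46200 * (d : ℝ) ^ (m + 4) := by
        nlinarith
      calc (50 * CC d c * L) ^ 2 * 2 ≤ (46200 * (d : ℝ) ^ (m + 4)) ^ 2 * 2 := by gcongr
        _ = 2 * 46200 ^ 2 * (d : ℝ) ^ (2 * (m + 4)) := by
          rw [mul_pow, ← pow_mul, mul_comm (m + 4) 2]
          ring
    have e3 : Real.exp (-x) * Real.exp x = 1 := by
      rw [← Real.exp_add]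
      simp
    have e4 : 0 < Real.exp (-x) := Real.exp_pos _
    calc (Real.exp (-x) * (50 * CC d c * L)) ^ 2
        = Real.exp (-x) * Real.exp (-x) * ((50 * CC d c * L) ^ 2 * 2) / 2 := by ring
      _ ≤ Real.exp (-x) * Real.exp (-x) * Real.exp x / 2 := by gcongr
      _ = Real.exp (-x) / 2 := by
        rw [mul_assoc, e3, mul_one]

end Pool.Agent.Y275.HE.AS4
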